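import Pool.Agent.Helper71.E5.WStmts3
import Pool.Agent.Helper82.EF.P4
import Pool.Agent.Helper49.E5.TRI

/-!
MP_efd95c_co, wheels of type C: Theorem P in the fan of `q`; rows K0 and KE0.
-/

set_option autoImplicit false
set_option linter.unusedVariables false

open Real

namespace E5

theorem h0_sin88 {r : ℝ} (h : 0 < r) (h2 : r < 2) : Real.sin (h0 r) = r / 2 := by
  unfold h0
  exact Real.sin_arcsin (by linarith) (by linarith)

theorem h0_pos88 {r : ℝ} (h : 0 < r) : 0 < h0 r := by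
  unfold h0
  exact Real.arcsin_pos.2 (by linarith)

theorem h0_le88 (r : ℝ) : h0 r ≤ π / 2 := by
  unfold h0
  exact Real.arcsin_le_pi_div_two _

theorem h0_mono88 {r s : ℝ} (h : r ≤ s) : h0 r ≤ h0 s := by
  unfold h0
  exact Real.monotone_arcsin (by linarith)

theorem ch_nonneg88 (r s θ : ℝ) : 0 ≤ ch r s θ := Real.sqrt_nonneg _

theorem hd_nonneg88 (r s θ : ℝ) : 0 ≤ hd r s θ := by
  unfold hd
  exact Real.arcsin_nonneg.2 (by have := ch_nonneg88 r s θ; linarith)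

theorem hd_le88 (r s θ : ℝ) : hd r s θ ≤ π / 2 := by
  unfold hd
  exact Real.arcsin_le_pi_div_two _

theorem ch_symm88 (r s θ : ℝ) : ch r s θ = ch s r θ := by
  unfold ch
  congr 1
  ring

theorem hd_symm88 (r s θ : ℝ) : hd r s θ = hd s r θ := by
  unfold hd
  rw [ch_symm88]

theorem ch_mono88 {r s θ ψ : ℝ} (hr : 0 < r) (hs : 0 < s) (h0 : 0 ≤ θ) (h1 : θ ≤ ψ)
    (h2 : ψ ≤ π) : ch r s θ ≤ ch r s ψ := by
  unfold ch
  apply Real.sqrt_le_sqrt
  have hc : Real.cos ψ ≤ Real.cos θ := Real.cos_le_cos_of_nonneg_of_le_pi h0 h2 h1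
  have := mul_le_mul_of_nonneg_left hc (mul_pos (mul_pos two_pos hr) hs).le
  linarith

theorem ch_strict88 {r s θ ψ : ℝ} (hr : 0 < r) (hs : 0 < s) (h0 : 0 ≤ θ) (h1 : θ < ψ)
    (h2 : ψ ≤ π) : ch r s θ < ch r s ψ := by
  have hc : Real.cos ψ < Real.cos θ := Real.cos_lt_cos_of_nonneg_of_le_pi h0 h2 h1
  have := mul_lt_mul_of_pos_left hc (mul_pos (mul_pos two_pos hr) hs)
  have h3 : ch r s θ ^ 2 < ch r s ψ ^ 2 := by
    rw [ch_sq, ch_sq]
    linarith
  exact lt_of_pow_lt_pow_left₀ 2 (ch_nonneg88 r s ψ) h3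

theorem hd_mono88 {r s θ ψ : ℝ} (hr : 0 < r) (hs : 0 < s) (h0 : 0 ≤ θ) (h1 : θ ≤ ψ)
    (h2 : ψ ≤ π) : hd r s θ ≤ hd r s ψ := by
  unfold hd
  apply Real.monotone_arcsin
  have := ch_mono88 hr hs h0 h1 h2
  show ch r s θ / 2 ≤ ch r s ψ / 2
  linarith

theorem hd_sq88 {r s θ ψ : ℝ} (hr : 0 < r) (hr2 : r < 2) (hs : 0 < s) (hs2 : s < 2)
    (hc : ch r s θ ≤ 2) (hθ : θ = π - ψ) :
    Real.sin (hd r s θ) ^ 2 = Real.sin (h0 r) ^ 2 + Real.sin (h0 s) ^ 2 +
      2 * Real.sin (h0 r) * Real.sin (h0 s) * Real.cos ψ := by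
  have h1 : Real.sin (hd r s θ) = ch r s θ / 2 := by
    unfold hd
    have := ch_nonneg88 r s θ
    exact Real.sin_arcsin (by linarith) (by linarith)
  rw [h1, h0_sin88 hr hr2, h0_sin88 hs hs2, div_pow, ch_sq, hθ, Real.cos_pi_sub]
  ring

/-- `y` stays beyond the chord `ab` when `b` is turned away -/
theorem hc88 {ra ry rb A b3 e : ℝ} (ra0 : 0 < ra) (ry0 : 0 < ry) (rb0 : 0 < rb)
    (A0 : 0 < A) (b30 : 0 < b3) (he0 : 0 < e) (heA : e ≤ A + b3) (he2 : e ≤ π / 2)
    (heP : e + (A + b3) ≤ π) (uy : un ry ra A + un ry rb b3 < π) :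
    ra * rb * Real.sin e ≤ ra * ry * Real.sin A + ry * rb * Real.sin (A + e) := by
  have hp := Real.pi_pos
  have hA : A < π := by linarith
  have hb3 : b3 < π := by linarith
  obtain ⟨u0, u1, u2, u3⟩ := tri_un (r := ra) ry0 A0 hA
  obtain ⟨v0, v1, v2, v3⟩ := tri_un (r := ry) ra0 A0 hA
  obtain ⟨w0, w1, w2, w3⟩ := tri_un (r := ry) rb0 b30 hb3
  have c1 := tri_ch_pos (r := ra) ry0 A0 hA
  have c2 := tri_ch_pos (r := ry) ra0 A0 hA
  have c3 := tri_ch_pos (r := ry) rb0 b30 hb3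
  have f0 : 0 ≤ ra * ry * Real.sin A + ry * rb * Real.sin b3 - ra * rb * Real.sin (A + b3) := by
    have h1 : 0 ≤ Real.sin (un ry ra A + un ry rb b3) :=
      Real.sin_nonneg_of_nonneg_of_le_pi (by linarith) uy.le
    have h2 : ra * ry * Real.sin A + ry * rb * Real.sin b3 - ra * rb * Real.sin (A + b3) =
        ch ry ra A * ch ry rb b3 * Real.sin (un ry ra A + un ry rb b3) := by
      rw [Real.sin_add (un ry ra A), Real.sin_add A b3]
      have e1 : ch ry ra A * ch ry rb b3 * (Real.sin (un ry ra A) * Real.cos (un ry rb b3) +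
          Real.cos (un ry ra A) * Real.sin (un ry rb b3)) =
          (ch ry ra A * Real.sin (un ry ra A)) * (ch ry rb b3 * Real.cos (un ry rb b3)) +
          (ch ry ra A * Real.cos (un ry ra A)) * (ch ry rb b3 * Real.sin (un ry rb b3)) := by
        ring
      rw [e1, ← v2, ← v3, ← w2, ← w3]
      ring
    rw [h2]
    positivity
  set c := ch ra ry A with hcdef
  set u := un ra ry A with hudef
  have g1 : ra * Real.sin (A + b3) - ry * Real.sin b3 = c * Real.sin (u + (A + b3)) := by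
    have e2 : Real.sin b3 = Real.sin ((A + b3) - A) := by congr 1; ring
    rw [e2, Real.sin_sub, Real.sin_add u]
    have e3 : c * (Real.sin u * Real.cos (A + b3) + Real.cos u * Real.sin (A + b3)) =
      (c * Real.sin u) * Real.cos (A + b3) + (c * Real.cos u) * Real.sin (A + b3) := by ring
    rw [e3, ← u2, ← u3]
    ring
  have g2 : ra * Real.sin e - ry * Real.sin (A + e) = c * Real.sin (e - u) := by
    rw [Real.sin_sub, Real.sin_add A]
    have e3 : c * (Real.sin e * Real.cos u - Real.cos e * Real.sin u) =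
      Real.sin e * (c * Real.cos u) - Real.cos e * (c * Real.sin u) := by ring
    rw [e3, ← u2, ← u3]
    ring
  have sA : 0 ≤ Real.sin A := Real.sin_nonneg_of_nonneg_of_le_pi A0.le hA.le
  have key : rb * (c * Real.sin (e - u)) ≤ ra * ry * Real.sin A := by
    rcases le_or_gt e u with h | h
    · have h3 : Real.sin (e - u) ≤ 0 :=
        Real.sin_nonpos_of_nonpos_of_neg_pi_le (by linarith) (by linarith)
      have h4 : rb * (c * Real.sin (e - u)) ≤ 0 :=
        mul_nonpos_of_nonneg_of_nonpos rb0.le (mul_nonpos_of_nonneg_of_nonpos c1.le h3)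
      have h5 : 0 ≤ ra * ry * Real.sin A := by positivity
      linarith
    · have h3 : Real.sin (e - u) ≤ Real.sin (u + (A + b3)) := by
        rcases le_or_gt (u + (A + b3)) (π / 2) with h4 | h4
        · exact Real.sin_le_sin_of_le_of_le_pi_div_two (by linarith) h4 (by linarith)
        · rw [← Real.sin_pi_sub (u + (A + b3))]
          exact Real.sin_le_sin_of_le_of_le_pi_div_two (by linarith) (by linarith) (by linarith)
      have h4 : rb * (c * Real.sin (e - u)) ≤ rb * (c * Real.sin (u + (A + b3))) := by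
        gcongr
      have h5 : rb * (c * Real.sin (u + (A + b3))) ≤ ra * ry * Real.sin A := by
        rw [← g1]
        nlinarith [f0]
      linarith
  rw [← g2] at key
  nlinarith [key]

/-- Theorem P for the points `a, x, y, b` seen from the hub, `y` nearer than `x` -/
theorem thmPx {ra rx ry rb b1 b2 b3 e : ℝ} (ra0 : 0 < ra) (ra2 : ra < 2) (rx0 : 0 < rx)
    (rx2 : rx < 2) (ry0 : 0 < ry) (ry2 : ry < 2) (rb0 : 0 < rb) (rb2 : rb < 2)
    (b10 : 0 < b1) (b20 : 0 < b2) (b30 : 0 < b3) (hyx : ry ≤ rx) (l3 : h0 rx < b2 + h0 ry)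
    (q0 : b1 + b2 + b3 + h0 ra + h0 rb < π) (l5 : h0 ry < b3 + h0 rb)
    (cax : ch ra rx b1 < 2) (cay : ch ra ry (b1 + b2) < 2)
    (uy : un ry ra (b1 + b2) + un ry rb b3 < π)
    (he0 : 0 < e) (he1 : e ≤ b2) (he2 : e ≤ π / 2) (heP : e + (b1 + b2 + b3) ≤ π)
    (hG : ch ra rb (π - e) ≤ 2) :
    hd ra rx b1 + h0 ry + h0 ra + h0 rb ≤ h0 rx + hd ra ry (b1 + b2) + hd ra rb (π - e) := by
  have hp := Real.pi_pos
  have pa := h0_pos88 ra0
  have pb := h0_pos88 rb0
  have py := h0_pos88 ry0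
  have px := h0_pos88 rx0
  have hA : b1 + b2 < π := by linarith
  have hay : h0 ra + h0 ry ≤ π - (b1 + b2) := by linarith
  -- the angle `t`
  obtain ⟨t, ht1, ht2, ht3, ht4⟩ : ∃ t : ℝ, e ≤ t ∧ t ≤ π / 2 ∧ t ≤ b2 ∧
      (ch ra rx (b1 + b2 - t) ≤ 2 ∧ h0 rx ≤ h0 ry + t) := by
    rcases le_or_gt b2 (π / 2) with h | h
    · refine ⟨b2, he1, h, le_rfl, ?_, by linarith⟩
      have : b1 + b2 - b2 = b1 := by ring
      rw [this]
      exact cax.le
    · refine ⟨π / 2, he2, le_rfl, h.le, ?_, ?_⟩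
      · have h1 : ch ra rx (b1 + b2 - π / 2) ^ 2 ≤ 2 ^ 2 := by
          rw [ch_sq, Real.cos_sub_pi_div_two]
          have h2 : ra / 2 ≤ Real.sin (b1 + b2) := by
            rw [← h0_sin88 ra0 ra2, ← Real.sin_pi_sub (b1 + b2)]
            exact Real.sin_le_sin_of_le_of_le_pi_div_two (by linarith) (by linarith)
              (by linarith)
          have h3 : ra * rx * (ra / 2) ≤ ra * rx * Real.sin (b1 + b2) := by gcongr
          rcases le_or_gt 1 rx with h4 | h4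
          · nlinarith [mul_nonneg (sq_nonneg ra) (sub_nonneg.2 h4)]
          · nlinarith [mul_nonneg (sub_nonneg.2 h4.le) (mul_nonneg (sub_nonneg.2 ra2.le)
              (by linarith : (0:ℝ) ≤ 2 + ra))]
        exact (pow_le_pow_iff_left₀ (ch_nonneg88 _ _ _) (by norm_num) (by norm_num)).1 h1
      · have := h0_le88 rx
        linarith
  have hX : hd ra rx b1 ≤ hd ra rx (b1 + b2 - t) :=
    hd_mono88 ra0 rx0 b10.le (by linarith) (by linarith)
  have hcc := hc88 (ra := ra) (ry := ry) (rb := rb) (A := b1 + b2) (b3 := b3) (e := e) ra0 ry0 rb0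
    (by linarith) b30 he0 (by linarith) he2 (by linarith) uy
  have main := H82EF.thmP (a := h0 ra) (b := h0 rb) (y := h0 ry) (x := h0 rx)
    (G := hd ra rb (π - e)) (Y := hd ra ry (b1 + b2)) (X := hd ra rx (b1 + b2 - t))
    (e := e) (t := t) (φ := π - (b1 + b2)) pa (h0_le88 _) pb (h0_le88 _) py
    (h0_mono88 hyx) (h0_le88 _) (by linarith) he0 he2 ht1 ht2 (by linarith) (by linarith)
    hay (by linarith) (hd_nonneg88 _ _ _) (hd_le88 _ _ _) (hd_nonneg88 _ _ _) (hd_le88 _ _ _)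
    (hd_le88 _ _ _) (hd_sq88 ra0 ra2 rb0 rb2 hG rfl)
    (hd_sq88 ra0 ra2 ry0 ry2 cay.le (by ring))
    (hd_sq88 ra0 ra2 rx0 rx2 ht4.1 (by ring)) ?_
  · linarith
  · rw [h0_sin88 ra0 ra2, h0_sin88 rb0 rb2, h0_sin88 ry0 ry2, Real.sin_pi_sub]
    have e1 : π - (b1 + b2) - e = π - (b1 + b2 + e) := by ring
    rw [e1, Real.sin_pi_sub]
    nlinarith [hcc]

/-- Theorem P in the fan of `q` -/
theorem thmPq {ra rx ry rb b1 b2 b3 e : ℝ} (hq : WQD ra rx ry rb b1 b2 b3) (he0 : 0 < e)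
    (he1 : e ≤ b2) (he2 : e ≤ π / 2) (heP : e + (b1 + b2 + b3) ≤ π)
    (hG : ch ra rb (π - e) ≤ 2) :
    (ry ≤ rx → hd ra rx b1 + h0 ry + h0 ra + h0 rb ≤
      h0 rx + hd ra ry (b1 + b2) + hd ra rb (π - e)) ∧
    (rx ≤ ry → hd ry rb b3 + h0 rx + h0 ra + h0 rb ≤
      h0 ry + hd rx rb (b2 + b3) + hd ra rb (π - e)) := by
  have hp := Real.pi_pos
  constructor
  · intro h
    exact thmPx hq.ra0 hq.ra2 hq.rx0 hq.rx2 hq.ry0 hq.ry2 hq.rb0 hq.rb2 hq.b10 hq.b20 hq.b30 h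
      hq.l3 hq.q0 hq.l5 hq.cax2 hq.cay2 (by have := hq.uy1; have := hq.uy2; linarith)
      he0 he1 he2 heP hG
  · intro h
    have e1 : b3 + b2 = b2 + b3 := by ring
    have e2 : b3 + b2 + b1 = b1 + b2 + b3 := by ring
    have hc1 : ch rb ry b3 < 2 := by rw [ch_symm88]; exact hq.cyb2
    have hc2 : ch rb rx (b3 + b2) < 2 := by rw [ch_symm88, e1]; exact hq.cxb2
    have hG' : ch rb ra (π - e) ≤ 2 := by rw [ch_symm88]; exact hG
    have := thmPx hq.rb0 hq.rb2 hq.ry0 hq.ry2 hq.rx0 hq.rx2 hq.ra0 hq.ra2 hq.b30 hq.b20 hq.b10 h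
      (by have := hq.l4; linarith) (by have := hq.q0; linarith) (by have := hq.l2; linarith)
      hc1 hc2 (by have := hq.ux1; have := hq.ux2; rw [e1]; linarith) he0 he1 he2
      (by rw [e2]; exact heP) hG'
    rw [hd_symm88 rb ry, hd_symm88 rb rx, hd_symm88 rb ra, e1] at this
    linarith

/-- Theorem P and the quadrilateral inequalities of `q` -/
theorem thmPk {ra rx ry rb b1 b2 b3 e : ℝ} (hq : WQD ra rx ry rb b1 b2 b3) (he0 : 0 < e)
    (he1 : e ≤ b2) (he2 : e ≤ π / 2) (heP : e + (b1 + b2 + b3) ≤ π)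
    (hG : ch ra rb (π - e) ≤ 2) :
    hd ra rx b1 + hd ry rb b3 + h0 ra + h0 rb <
      hd ra ry (b1 + b2) + hd rx rb (b2 + b3) + hd ra rb (π - e) := by
  obtain ⟨h1, h2⟩ := thmPq hq he0 he1 he2 heP hG
  rcases le_total ry rx with h | h
  · have := h1 h
    have := hq.k1
    linarith
  · have := h2 h
    have := hq.k2
    linarith

theorem st_K0 : ST_K0 := by
  intro ra rx ry rb b1 b2 b3 t4 hw
  have hp := Real.pi_pos
  have hq := hw.q
  have ht := hw.p.ts
  have h4 := hw.p.t4p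
  have hle : b1 + b2 + b3 ≤ t4 := by
    by_contra hlt
    rw [not_le] at hlt
    have := ch_strict88 hq.ra0 hq.rb0 hw.p.t40.le hlt hq.bs.le
    have := hw.cab
    linarith
  have b10 := hq.b10
  have b20 := hq.b20
  have b30 := hq.b30
  have e1 : π - (π - t4) = t4 := by ring
  have := thmPk (e := π - t4) hq (by linarith) (by linarith) (by linarith) (by linarith)
    (by rw [e1]; exact hw.p.pab.le)
  rw [e1] at this
  have hpos := hw.pos
  rw [hd_symm88 ry rx] at hpos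
  linarith

theorem ang88 {r s θ ψ : ℝ} (hr : 0 < r) (hs : 0 < s) (h0 : 0 < θ) (h1 : θ < π) (h2 : 0 < ψ)
    (h3 : ψ < π) (h : ch r s θ = ch r s ψ) : θ = ψ := by
  rcases lt_trichotomy θ ψ with h4 | h4 | h4
  · have := ch_strict88 hr hs h0.le h4 h3.le
    linarith
  · exact h4
  · have := ch_strict88 hr hs h2.le h4 h1.le
    linarith

theorem st_KE0 : ST_KE0 := by
  intro ra rx ry rb Ra b1 b2 b3 t1 t2 t3 t4 hw hR h1 h2 h3 h4 hk
  have hp := Real.pi_pos
  have hq := hw.q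
  have ht := hw.p.ts
  have b10 := hq.b10
  have b20 := hq.b20
  have b30 := hq.b30
  have bs := hq.bs
  have e2 : b2 = t2 := ang88 hq.ry0 hq.rx0 b20 (by linarith) hw.p.t20 hw.p.t2p h2
  have e3 : b2 + b3 = t3 := ang88 hq.rx0 hq.rb0 (by linarith) (by linarith) hw.p.t30 hw.p.t3p h3
  have hga := hw.ga hR rfl rfl rfl h1 h4 hk
  have e1 : π - (π - (b1 + b2 + b3)) = b1 + b2 + b3 := by ring
  have hm := thmPk (e := π - (b1 + b2 + b3)) hq (by linarith) (by linarith) (by linarith)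
    (by linarith) (by rw [e1]; exact hq.cab2.le)
  rw [e1] at hm
  have hpos := hw.pos
  have d1 : hd Ra ry t1 = hd ra ry (b1 + b2) := by unfold hd; rw [h1]
  have d2 : hd ry rx t2 = hd rx ry b2 := by rw [← e2, hd_symm88]
  have d3 : hd rx rb t3 = hd rx rb (b2 + b3) := by rw [← e3]
  have d4 : hd Ra rb t4 = hd ra rb (b1 + b2 + b3) := by unfold hd; rw [h4]
  rw [d1, d2, d3, d4] at hpos
  linarith

end E5
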